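import Pool.Agent.H176.DT.G1
import Pool.Agent.H176.DT.H8

/-!
MP_3029eb_ag: embedded local uniformization of towers of valued fields without defect, in all
dimensions, ranks and (mixed) characteristics.

Let `V` be a valuation ring of a field `K`, let `E` be a subfield of `K` and `R` a noetherian
subring of `E ∩ V` with fraction field `E`. Suppose that `R` is a Dedekind ring or a field, or that
`V ∩ E` is log uniformizable on `Spec R` (for example, `R` quasi-excellent of dimension at most `3`,
by Cossart and Piltant). Suppose that `K` is reached from `E` by finitely many steps `L ⊂ L'` of the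
following kinds: (1) `L' = L(t)` with `t` transcendental, such that the value of every polynomial in
`t` is determined by a defectless key polynomial; (2) `L'` is a finite extension of `L` without
defect (the degree of the extension of the henselizations is `e f`). The ramification can be wild
and the extensions of the residue fields can be inseparable. Then the valuation admits local
uniformization, in the embedded form, on every local domain `S` with fraction field `K` which is
essentially of finite type over `R` and dominated by `V`.
-/

set_option autoImplicit false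

universe u

namespace Pool.Agent.Results.MP_3029eb_ag.KeyPolynomialTowersLU

open Pool.Agent.W418.LU2

/-- The local ring of `Spec B` at the centre of the valuation ring `V`: the fractions of elements
of `B` whose denominators are units of `V`. -/
def centreRing {F : Type u} [Field F] (V : ValuationSubring F) (B : Subring F) : Subring F where
  carrier := {x | ∃ a ∈ B, ∃ b ∈ B, b ≠ 0 ∧ b⁻¹ ∈ V ∧ x = a * b⁻¹}
  mul_mem' := (lo V.toSubring B).mul_mem'
  one_mem' := (lo V.toSubring B).one_mem'
  add_mem' := (lo V.toSubring B).add_mem'
  zero_mem' := (lo V.toSubring B).zero_mem'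
  neg_mem' := (lo V.toSubring B).neg_mem'

/-- The chart `A[I / f]` of the blowing-up of `Spec A` in the ideal `I`. -/
def blowUpChart {F : Type u} [Field F] (A : Subring F) (I : Ideal A) (f : A) : Subring F :=
  Subring.closure ((A : Set F) ∪ {z | ∃ a ∈ I, z = (a : F) / (f : F)})

/-- `P` is a regular local ring and the zero set of `J` is a divisor with strict normal
crossings: the radical of `J` is generated by the product of some of the elements of a regular
system of parameters. -/
def RegularPair (P : Type u) [CommRing P] (J : Ideal P) : Prop :=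
  ∃ (_ : IsRegularLocalRing P) (n : ℕ) (x : Fin n → P) (s : Finset (Fin n)),
    Ideal.span (Set.range x) = IsLocalRing.maximalIdeal P ∧ ringKrullDim P = n ∧
      J.radical = Ideal.span {∏ i ∈ s, x i}

/-- The blowing-up of `X = Spec A` in `V(I)` is a log desingularization of `(X, V(D))` along the
valuation ring `V`. Here `f ∈ I` generates `I V`, the centre of the lift of the valuation lies in
the chart `Spec A[I / f]`, and the ideal `D I` defines the preimage of `V(D) ∪ V(I)`. -/
def IsLogDesingularization {F : Type u} [Field F] (V : ValuationSubring F) (A : Subring F)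
    (D I : Ideal A) : Prop :=
  ∃ f ∈ I, f ≠ 0 ∧ (∀ a ∈ I, (a : F) / (f : F) ∈ V) ∧
    RegularPair (centreRing V (blowUpChart A I f))
      (Ideal.span {z | ∃ a ∈ D * I, (z : F) = (a : F)})

/-- The valuation ring `V` is log uniformizable on `Spec A`. (The blowings-up in the ideals
`I₀ * I₁` are cofinal: the blowing-up in `I₀ * I₁` factors through the blowing-up in `I₀`.) -/
def IsLogUniformizable {F : Type u} [Field F] (V : ValuationSubring F) (A : Subring F) : Prop :=
  ∀ D I₀ : Ideal A, D ≠ ⊥ → I₀ ≠ ⊥ →
    ∃ I₁ : Ideal A, I₁ ≠ ⊥ ∧ IsLogDesingularization V A D (I₀ * I₁)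

/-- The subring `P` of the field `K` is a regular local ring with a regular system of parameters `x`
such that every element of `Z` is the product of a unit of `P` and a monomial in the `x i`, with
exponents `≥ 0` for the elements of `Z` which lie in the valuation ring `V`. -/
def IsAdapted {K : Type u} [Field K] (V : ValuationSubring K) (P : Subring K) (Z : Set K) : Prop :=
  ∃ (_ : IsRegularLocalRing P) (n : ℕ) (x : Fin n → P),
    Ideal.span (Set.range x) = IsLocalRing.maximalIdeal P ∧ ringKrullDim P = n ∧
      ∀ z ∈ Z, ∃ (u : Pˣ) (γ : Fin n → ℤ),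
        z = ((u : P) : K) * ∏ i, (x i : K) ^ γ i ∧ (z ∈ V → ∀ i, 0 ≤ γ i)

/-- The valuation ring `V` of `K` admits embedded local uniformization on the subring `S`: for
every finite set `Z` of nonzero elements of `K` there is a finitely generated `S`-algebra
`B = S[H]` in `V` such that the local ring of `B` at the centre of `V` is regular and has a regular
system of parameters in which the elements of `Z` are units times monomials. -/
def AdmitsEmbeddedLocalUniformization {K : Type u} [Field K] (V : ValuationSubring K)
    (S : Subring K) : Prop :=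
  ∀ Z : Set K, Z.Finite → (∀ z ∈ Z, z ≠ 0) → ∃ H : Set K, H.Finite ∧
    ∃ B : Subring K, B = Subring.closure ((S : Set K) ∪ H) ∧ B ≤ V.toSubring ∧
      IsAdapted V (centreRing V B) Z

section key

open Polynomial

variable {K : Type u} [Field K] (V : ValuationSubring K) {L : Subfield K} (θ : K)

/-- The monic polynomial `ϕ` over `L` of positive degree is a key polynomial for the valuation
`f ↦ |f(θ)|` of polynomials: if `f` and `g` are nonzero polynomials of smaller degree and
`f g = q ϕ + r` with `deg r < deg ϕ`, then `|q(θ) ϕ(θ)| < |f(θ) g(θ)|`. (So `|r(θ)| = |f(θ) g(θ)|`,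
and the values of the polynomials of smaller degree define a valuation of `L[X] / (ϕ)`.) -/
def IsKey (ϕ : L[X]) : Prop :=
  ϕ.Monic ∧ 0 < ϕ.natDegree ∧ ∀ f g : L[X], f.degree < ϕ.degree → g.degree < ϕ.degree →
    f ≠ 0 → g ≠ 0 → V.valuation (aeval θ (f * g /ₘ ϕ * ϕ)) < V.valuation (aeval θ (f * g))

/-- The polynomials of degree less than the degree of `ϕ` have an orthogonal basis over `L` with
respect to the valuation `f ↦ |f(θ)|`. (For a key polynomial `ϕ` this means that the valued field
`L[X] / (ϕ)` is an extension of `L` of degree `e f`. It holds if there are no limit key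
polynomials of degree at most `deg ϕ`.) -/
def IsDefectless (ϕ : L[X]) : Prop :=
  ∃ (n : ℕ) (β : Fin n → L[X]), (∀ i, (β i).degree < ϕ.degree ∧ β i ≠ 0) ∧
    (∀ f : L[X], f.degree < ϕ.degree → ∃ c : Fin n → L, f = ∑ i, C (c i) * β i) ∧
    ∀ (c : Fin n → L) (i : Fin n), V.valuation (aeval θ (C (c i) * β i)) ≤
      V.valuation (aeval θ (∑ j, C (c j) * β j))

/-- The value of `f(θ)` is determined by `ϕ`: in the `ϕ`-adic expansion `f = ∑ f_k ϕ ^ k` with
`deg f_k < deg ϕ` the value of no term at `θ` is greater than the value of `f(θ)`. -/
def IsDetermined (ϕ f : L[X]) : Prop :=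
  ∃ (N : ℕ) (d : ℕ → L[X]), (∀ k, (d k).degree < ϕ.degree) ∧
    f = ∑ k ∈ Finset.range N, d k * ϕ ^ k ∧
    ∀ k < N, V.valuation (aeval θ (d k * ϕ ^ k)) ≤ V.valuation (aeval θ f)

end key

open Polynomial in
/-- The extension `L ⊆ L'` of subfields of `K` is finite and has no defect with respect to the
valuation ring `V` of `K`. That is, for some valuation ring `W` over `V` of some extension field
`M` of `K`, some root `ζ ∈ M` of a monic polynomial `f` over `V ∩ L` with `|f'(ζ)| = 1`, and some
nonzero elements `β i` of `L'`, the field `L'(ζ)` is the sum of the lines `L(ζ) β i`, and the `β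
i` are orthogonal over `L(ζ) = L[ζ]`. (The extension `L(ζ) / L` is unramified. If `L^h ⊆ L'^h ⊆
K^h` are the henselizations for `V` and `[L'^h : L^h] = e f`, then this holds with `M = K^h`,
`L(ζ)` a large finite subextension of `L^h / L`, and with products of `e` elements of `L'` whose
values represent the cosets of the value group and `f` elements of `L'` whose residues form a
basis for the `β i`. For `M = K` and `L(ζ) = L` it is the condition `[L' : L] = e f`.) -/
def IsFiniteWithoutDefect {K : Type u} [Field K] (V : ValuationSubring K) (L L' : Subfield K) :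
    Prop :=
  L ≤ L' ∧ ∃ (M : Type u) (_ : Field M) (_ : Algebra K M) (W : ValuationSubring M) (ζ : M)
    (f : L[X]) (n : ℕ) (β : Fin n → K), W.comap (algebraMap K M) = V ∧ f.Monic ∧
    (∀ i, (f.coeff i : K) ∈ V) ∧ eval₂ ((algebraMap K M).comp L.subtype) ζ f = 0 ∧
    W.valuation (eval₂ ((algebraMap K M).comp L.subtype) ζ (derivative f)) = 1 ∧
    (∀ i, β i ∈ L' ∧ β i ≠ 0) ∧
    (∀ z ∈ L', ∃ c : Fin n → L[X], algebraMap K M z =
      ∑ i, eval₂ ((algebraMap K M).comp L.subtype) ζ (c i) * algebraMap K M (β i)) ∧
    ∀ (c : Fin n → L[X]) (i : Fin n),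
      W.valuation (eval₂ ((algebraMap K M).comp L.subtype) ζ (c i) * algebraMap K M (β i)) ≤
        W.valuation (∑ j, eval₂ ((algebraMap K M).comp L.subtype) ζ (c j) * algebraMap K M (β j))

open Polynomial in
/-- The subfields `L` of `K` which are reached from the field `E` by a tower of steps without
defect with respect to the valuation ring `V` of `K`. -/
inductive Tower (E : Type u) {K : Type u} [Field E] [Field K] [Algebra E K]
    (V : ValuationSubring K) : Subfield K → Prop
  /-- The tower starts with (the image of) `E`. -/
  | base : Tower E V (algebraMap E K).fieldRange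
  /-- The step from `L` to `L(t)`, where `t` is transcendental and the value of every polynomial in
  `t` is determined by a defectless key polynomial. (This holds if the valuation of `L(t)` has no
  limit key polynomials; for example, if `L` is algebraically closed, if `t` is a limit of a
  pseudo-convergent sequence of transcendental type, or if the value or the residue of a
  defectless key polynomial at `t` is transcendental over `L`.) -/
  | transcendental (L : Subfield K) (t : K) : Tower E V L → Transcendental L t →
    (∀ f : L[X], ∃ ϕ : L[X], IsKey V t ϕ ∧ IsDefectless V t ϕ ∧ IsDetermined V t ϕ f) →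
    Tower E V (L ⊔ Subfield.closure {t})
  /-- The step from `L` to a finite extension `L'` without defect. -/
  | finite (L L' : Subfield K) : Tower E V L → IsFiniteWithoutDefect V L L' → Tower E V L'

/-- Let `V` be a valuation ring of a field `K`, of arbitrary rank and (mixed) characteristic, let
`E` be a subfield of `K`, and `R` a noetherian subring of `E` with fraction field `E` which lies in
`V`. Suppose that `R` is a Dedekind ring (or a field), or that `V ∩ E` is log uniformizable on
`Spec R`. Suppose that `K` is reached from `E` by a tower as above. Let `S` be a local domain with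
fraction field `K` which is essentially of finite type over `R` and dominated by `V`, that is, the
local ring at the centre of `V` of an `R`-algebra `A ⊆ V` of finite type with fraction field `K`.
Then `V` admits embedded local uniformization on `S`. -/
theorem result {E K : Type u} [Field E] [Field K] [Algebra E K] (V : ValuationSubring K)
    (R : Subring E) [IsNoetherianRing R]
    (hfr : ∀ z : E, ∃ a ∈ R, ∃ b ∈ R, b ≠ 0 ∧ z = a * b⁻¹)
    (hRV : ∀ a ∈ R, algebraMap E K a ∈ V)
    (hR : IsDedekindDomain R ∨ IsLogUniformizable (V.comap (algebraMap E K)) R)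
    (hK : Tower E V ⊤)
    (G : Set K) (hG : G.Finite) (A : Subring K)
    (hA : A = Subring.closure ((R.map (algebraMap E K) : Set K) ∪ G)) (hAV : A ≤ V.toSubring)
    (hAK : ∀ z : K, ∃ a ∈ A, ∃ b ∈ A, b ≠ 0 ∧ z = a * b⁻¹)
    (S : Subring K) (hS : S = centreRing V A) :
    AdmitsEmbeddedLocalUniformization V S := by
  have hRW : R ≤ (V.comap (algebraMap E K)).toSubring := fun a ha => hRV a ha
  have hLU : LogUnif (V.comap (algebraMap E K)) R := by
    rcases hR with hR | hR
    · exact logUnif_of_dedekind _ R hRW hfr
    · exact hR
  have kp : ∀ {L : Subfield K} {θ : K} {ϕ : Polynomial L}, IsKey V θ ϕ → IsDefectless V θ ϕ →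
      ∃ (n : ℕ) (β : Fin n → Polynomial L), Pool.Agent.H176.DT.KP V θ ϕ β := by
    rintro L θ ϕ ⟨h1, h2, h3⟩ ⟨n, β, h4, h5, h6⟩
    exact ⟨n, β, h1, h2, fun i => (h4 i).1, fun i => (h4 i).2, h5, h6, h3⟩
  have key : ∀ L : Subfield K, Tower E V L →
      Pool.Agent.H176.DT.Inv V (R.map (algebraMap E K)) L.subtype := by
    intro L hL
    induction hL with
    | base => exact Pool.Agent.H176.DT.sub_base V R ⟨hRW, hfr⟩ hLU
    | transcendental L t _ ht hdom ih =>
      refine Pool.Agent.H176.DT.sub_trans V _ t ht (fun f => ?_) ih
      obtain ⟨ϕ, h1, h2, N, d, h3, h4, h5⟩ := hdom f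
      obtain ⟨n, β, h6⟩ := kp h1 h2
      exact ⟨ϕ, n, β, h6, N, d, ⟨h3, h4⟩, h5⟩
    | finite L L' _ hnd ih => exact Pool.Agent.H176.DT.sub_nd V _ hnd.1 hnd.2 ih
  have h1 := Pool.Agent.H176.DT.inv_SU V (key ⊤ hK) A G hG hA ⟨hAV, hAK⟩
  intro Z hZ hZ0
  obtain ⟨H, hH, hHV, hreg, h2⟩ := Pool.Agent.H176.DT.emb_LU V A hAV h1 Z hZ hZ0
  have h3 : centreRing V (Subring.closure ((S : Set K) ∪ H)) =
      centreRing V (Subring.closure ((A : Set K) ∪ H)) := by
    rw [hS]
    exact Pool.Agent.H176.DT.lo_cl hAV fun z hz => hHV (Subring.subset_closure (Or.inr hz))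
  refine ⟨H, hH, _, rfl, ?_, ?_⟩
  · rw [Subring.closure_le]
    rintro z (hz | hz)
    · rw [hS] at hz
      exact lo_le hAV hz
    · exact hHV (Subring.subset_closure (Or.inr hz))
  · rw [h3]
    obtain ⟨n, x, h4⟩ := h2
    exact ⟨hreg, n, x, h4⟩

end Pool.Agent.Results.MP_3029eb_ag.KeyPolynomialTowersLU
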