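import Pool.Agent.Y177.Dg.LocP
import Pool.Agent.H519R3.RS.LUS

/-!
MP_3029eb_ag: local uniformization for the local rings of the quotients of smooth affine varieties
of characteristic `p` by finite groups `G` with a normal subgroup `P` of order `p` whose elements
are linear in etale coordinates near their fixed points, with `G / P` abelian of order prime to
`p`; in particular of the quotients of the powers `X ^ n` of smooth affine varieties by permutation
groups `G` of this kind, such as the solvable transitive permutation groups of degree `p`.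
-/

set_option autoImplicit false

open AlgebraicGeometry CategoryTheory MvPolynomial TensorProduct Pool.Agent.H920R2
  Pool.Agent.H519R3.RS

namespace Pool.Agent.Results.MP_3029eb_ag.LocallyLinearGroupsLU

/-- The endomorphism `ρ` is linear in etale coordinates near its fixed points: for every prime
ideal `q` with `ρ b - b ∈ q` for all `b` there are an element `f` outside `q` which is fixed by `ρ`
and etale coordinates `y i / f ^ N` on `Spec B[1 / f]` such that the linear span of the `y i` is
mapped to itself by `ρ`. -/
def IsLocallyLinear {k B : Type} [Field k] [CommRing B] [Algebra k B] (ρ : B →ₐ[k] B) : Prop :=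
  ∀ q : Ideal B, q.IsPrime → (∀ b, ρ b - b ∈ q) →
    ∃ f : B, f ∉ q ∧ ρ f = f ∧ ∃ (m N : ℕ) (y : Fin m → B),
      ((aeval fun i => algebraMap B (Localization.Away f) (y i) *
          IsLocalization.Away.invSelf f ^ N :
        MvPolynomial (Fin m) k →ₐ[k] Localization.Away f).toRingHom).Etale ∧
      ∀ i, ρ (y i) ∈ Submodule.span k (Set.range y)

/-- The ring of invariants of a group of automorphisms. -/
def invariants {k B : Type} [Field k] [CommRing B] [Algebra k B] {G : Type} [Group G]
    (θ : G →* (B ≃ₐ[k] B)) : Subalgebra k B where
  carrier := {b | ∀ g, θ g b = b}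
  mul_mem' := fun {a b} ha hb g => by rw [map_mul, ha g, hb g]
  add_mem' := fun {a b} ha hb g => by rw [map_add, ha g, hb g]
  algebraMap_mem' := fun c g => AlgEquiv.commutes _ _

/-- The permutation of the factors of the algebra `⨂ A`: it maps `⨂ a_i` to `⨂ a_{π i}`. -/
noncomputable def perm (k A : Type) [Field k] [CommRing A] [Algebra k A] {n : ℕ}
    (π : Equiv.Perm (Fin n)) : (⨂[k] _ : Fin n, A) →ₐ[k] (⨂[k] _ : Fin n, A) :=
  PiTensorProduct.liftAlgHom
    ((PiTensorProduct.tprod k : MultilinearMap k (fun _ : Fin n => A) _).domDomCongr π)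
    (by
      rw [MultilinearMap.domDomCongr_apply, PiTensorProduct.one_def]
      rfl)
    (by
      intro x y
      rw [MultilinearMap.domDomCongr_apply, MultilinearMap.domDomCongr_apply,
        MultilinearMap.domDomCongr_apply, PiTensorProduct.tprod_mul_tprod]
      rfl)

/-- The ring of invariants of a group of permutations of the factors. -/
noncomputable def permInvariants (k A : Type) [Field k] [CommRing A] [Algebra k A] {n : ℕ}
    (G : Subgroup (Equiv.Perm (Fin n))) : Subalgebra k (⨂[k] _ : Fin n, A) where
  carrier := {b | ∀ π ∈ G, perm k A π b = b}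
  mul_mem' := fun {a b} ha hb g hg => by rw [map_mul, ha g hg, hb g hg]
  add_mem' := fun {a b} ha hb g hg => by rw [map_add, ha g hg, hb g hg]
  algebraMap_mem' := fun c g _ => AlgHom.commutes _ _

/-- All local rings of `Spec A` admit local uniformization. -/
def LocalRingsAdmitLU (A : Type) [CommRing A] : Prop :=
  ∀ (P : Ideal A) [P.IsPrime] (R : Type) [CommRing R] [IsLocalRing R] [Algebra A R]
    [IsLocalization.AtPrime R P], AdmitsLU R

/-- Let `k` be a field of characteristic `p`, and `G` a finite group with a normal subgroup `P` of
order `1` or `p` such that `G / P` is abelian of order prime to `p` and `k` contains enough roots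
of unity for `G / P`.

1. If `G` acts on a smooth affine variety `X = Spec B` over `k` such that the elements of `P` act
linearly in etale coordinates near their fixed points, then all local rings of `X / G` admit local
uniformization.

2. If `G` is a group of permutations of the factors of a power `X ^ n` of a smooth affine variety
`X = Spec A` over `k` such that `X ^ n` is integral, which is automatic if `k` is algebraically
closed, then all local rings of `X ^ n / G` admit local uniformization. -/
theorem result (p : ℕ) [Fact p.Prime] (k : Type) [Field k] [CharP k p] :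
    (∀ (B : Type) [CommRing B] [IsDomain B] [Algebra k B] [Algebra.Smooth k B] (G : Type) [Group G]
      [Finite G] (θ : G →* (B ≃ₐ[k] B)) (P : Subgroup G) [P.Normal], Nat.card P ∣ p →
      (∀ g h : G, g * h * g⁻¹ * h⁻¹ ∈ P) → P.index.Coprime p →
      ∀ [HasEnoughRootsOfUnity k (Monoid.exponent (G ⧸ P))],
      (∀ g ∈ P, IsLocallyLinear (θ g : B →ₐ[k] B)) → LocalRingsAdmitLU (invariants θ)) ∧
    ∀ (A : Type) [CommRing A] [IsDomain A] [Algebra k A] [Algebra.Smooth k A] (n : ℕ),
      IsAlgClosed k ∨ IsDomain (⨂[k] _ : Fin n, A) →
      ∀ (G : Subgroup (Equiv.Perm (Fin n))) (P : Subgroup G) [P.Normal], Nat.card P ∣ p →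
      (∀ g h : G, g * h * g⁻¹ * h⁻¹ ∈ P) → P.index.Coprime p →
      ∀ [HasEnoughRootsOfUnity k (Monoid.exponent (G ⧸ P))],
      LocalRingsAdmitLU (permInvariants k A G) := by
  have hp : p.Prime := Fact.out
  have hpk : (p : k) = 0 := CharP.cast_eq_zero k p
  have hQ : ∀ m : ℕ, m.Coprime p → (m : k) ≠ 0 := by
    intro m hm
    rw [Ne, CharP.cast_eq_zero_iff k p]
    intro h
    exact (Nat.Prime.coprime_iff_not_dvd hp).1 hm.symm h
  refine ⟨?_, ?_⟩
  · intro B _ _ _ _ G _ _ θ P _ hP hab hcop _ hL Q _ R _ _ _ _
    exact admitsLU_of_res (Pool.Agent.Y177.Dg.loc_group (p := p) hp hpk θ P hP hab (hQ _ hcop) hL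
      (invariants θ) fun b => Iff.rfl).2 Q R
  · intro A _ _ _ _ n hdom G P _ hP hab hcop _ Q _ R _ _ _ _
    have hdomB : IsDomain (⨂[k] _ : Fin n, A) := by
      rcases hdom with h | h
      · exact isDomain_pi n fun _ => A
      · exact h
    exact admitsLU_of_res (Pool.Agent.Y177.Dg.perm_group (p := p) hp hpk G P hP hab (hQ _ hcop)
      (permInvariants k A G) fun b => Iff.rfl).2 Q R

end Pool.Agent.Results.MP_3029eb_ag.LocallyLinearGroupsLU
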