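import Pool.Agent.H519R3.RS.LUS
import Pool.Agent.Y177.Dg.TorG
import Pool.Agent.Y177.Tor.Conc

/-!
MP_3029eb_ag: local uniformization for the local rings of the quotients of products of a torus and
an affine space in characteristic `p` by finite groups `G` with a normal subgroup `P` of order `p`
such that `G / P` is abelian of order prime to `p`.
-/

set_option autoImplicit false

open AlgebraicGeometry CategoryTheory Pool.Agent.H920R2 Pool.Agent.H519R3.RS

namespace Pool.Agent.Results.MP_3029eb_ag.TorusGroupQuotientsLU

/-- `B` is the coordinate ring of `𝔾_m ^ r × 𝔸 ^ m` and `y` are the coordinates on the factor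
`𝔸 ^ m`: there is an isomorphism from the ring of polynomials in `m` variables over the ring of
Laurent polynomials in `r` variables to `B` which maps the variables to the `y j`. -/
def IsTorusTimesAffine (k B : Type) [Field k] [CommRing B] [Algebra k B] (r : ℕ) {m : ℕ}
    (y : Fin m → B) : Prop :=
  ∃ e : MvPolynomial (Fin m) (AddMonoidAlgebra k (Fin r → ℤ)) ≃ₐ[k] B,
    ∀ j, e (MvPolynomial.X j) = y j

/-- `σ` maps the `y j` to polynomials of degree at most `1` in `y` with coefficients in `k`. -/
def AffineLinear {k B : Type} [Field k] [CommRing B] [Algebra k B] (σ : B ≃ₐ[k] B) {m : ℕ}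
    (y : Fin m → B) : Prop :=
  ∀ j, ∃ (a : Fin m → k) (b : k), σ (y j) = ∑ i, a i • y i + algebraMap k B b

/-- The ring of invariants of a group of automorphisms. -/
def invariants {k B : Type} [Field k] [CommRing B] [Algebra k B] {G : Type} [Group G]
    (θ : G →* (B ≃ₐ[k] B)) : Subalgebra k B where
  carrier := {b | ∀ g, θ g b = b}
  mul_mem' := fun {a b} ha hb g => by rw [map_mul, ha g, hb g]
  add_mem' := fun {a b} ha hb g => by rw [map_add, ha g, hb g]
  algebraMap_mem' := fun c g => AlgEquiv.commutes _ _

/-- Let `k` be a perfect field of characteristic `p > 0` and `G` a finite group of automorphisms of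
the variety `X = 𝔾_m ^ r × 𝔸 ^ m` over `k` which map the coordinates of the factor `𝔸 ^ m` to
polynomials of degree at most `1` in these coordinates with coefficients in `k`; there is no
condition on the action on `𝔾_m ^ r`. Suppose that `G` has a normal subgroup `P` of order `1` or
`p` such that `G / P` is abelian of order prime to `p`, and that `k` contains enough roots of
unity for `G / P`. Then the local ring of `X / G` at an arbitrary prime ideal admits local
uniformization. -/
theorem result (p : ℕ) [Fact p.Prime] (k : Type) [Field k] [CharP k p] [PerfectField k]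
    (B : Type) [CommRing B] [Algebra k B] (r m : ℕ) (y : Fin m → B)
    (hB : IsTorusTimesAffine k B r y) (G : Type) [Group G] [Finite G] (θ : G →* (B ≃ₐ[k] B))
    (haff : ∀ g, AffineLinear (θ g) y) (P : Subgroup G) [P.Normal] (hP : Nat.card P ∣ p)
    (hab : ∀ g h : G, g * h * g⁻¹ * h⁻¹ ∈ P) (hprime : P.index.Coprime p)
    [HasEnoughRootsOfUnity k (Monoid.exponent (G ⧸ P))] (Q : Ideal (invariants θ)) [Q.IsPrime]
    (R : Type) [CommRing R] [IsLocalRing R] [Algebra (invariants θ) R]
    [IsLocalization.AtPrime R Q] : AdmitsLU R := by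
  obtain ⟨e, he⟩ := hB
  have hdom : IsDomain B := e.symm.toMulEquiv.isDomain _
  have hftB : Algebra.FiniteType k B := Algebra.FiniteType.equiv inferInstance e
  have T := (Pool.Agent.Y177.Tor.tv_CR k r m).congr e
  have hQ : (P.index : k) ≠ 0 := by
    rw [Ne, CharP.cast_eq_zero_iff k p]
    intro h
    exact (Nat.Prime.coprime_iff_not_dvd Fact.out).1 hprime.symm h
  suffices h : HasResolution (X := Spec (CommRingCat.of (invariants θ)))
      (Spec.map (CommRingCat.ofHom (algebraMap k (invariants θ)))) from
    admitsLU_of_res h Q R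
  refine (Pool.Agent.Y177.Dg.tor_group (p := p) T θ P hP hab hQ ?_ ?_ (invariants θ)
    (fun b => Iff.rfl)).2
  · intro g a
    have h1 : IsUnit (e.symm (θ g (e (Pool.Agent.Y177.Tor.chr k r m a)))) :=
      (((IsUnit.of_mul_eq_one _ ((Pool.Agent.Y177.Tor.tv_CR k r m).mul_neg a)).map e).map
        (θ g)).map e.symm
    obtain ⟨c, b, hc, h2⟩ := Pool.Agent.Y177.Tor.unit_CR h1
    refine ⟨c, hc, b, ?_⟩
    have h3 := congrArg e h2
    rw [AlgEquiv.apply_symm_apply, map_mul, AlgEquiv.commutes] at h3
    exact h3
  · intro g
    choose a b hab' using haff g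
    intro v
    refine ⟨fun i => ∑ j, v j * a j i, ∑ j, v j * b j, ?_⟩
    have hL : ∀ w : Fin m → k, (e.toLinearMap.comp (Pool.Agent.Y177.Tor.lin k r m)) w =
        ∑ i, w i • y i := by
      intro w
      rw [LinearMap.comp_apply, Pool.Agent.Y177.Tor.lin_apply, map_sum]
      refine Finset.sum_congr rfl fun i _ => ?_
      rw [map_smul, AlgEquiv.toLinearMap_apply, he]
    rw [hL, map_sum, hL]
    have h1 : ∀ j, θ g (v j • y j) = ∑ i, (v j * a j i) • y i + algebraMap k _ (v j * b j) := by
      intro j
      rw [map_smul, hab', smul_add, Finset.smul_sum, map_mul, Algebra.smul_def (v j)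
        (algebraMap k B (b j))]
      congr 1
      exact Finset.sum_congr rfl fun i _ => by rw [mul_smul]
    simp only [h1]
    rw [Finset.sum_add_distrib, Finset.sum_comm, map_sum]
    congr 1
    exact Finset.sum_congr rfl fun i _ => by rw [Finset.sum_smul]

end Pool.Agent.Results.MP_3029eb_ag.TorusGroupQuotientsLU
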